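import Pool.Agent.Helper82.CN.St

/-!
# Project CN, module MCD: concentration of the chromatic number
-/

set_option autoImplicit false

namespace Pool.Agent.Helper89.CN

open Finset Pool.Agent.Helper82.CN

/-- the block of a bit -/
private def bl_MCD {n : ℕ} (e : Sym2 (Fin n)) : Fin n :=
  Sym2.lift ⟨fun i j => max i j, fun i j => max_comm i j⟩ e

private lemma ch_le_MCD {V : Type} {G : SimpleGraph V} {c : ℕ} (h : G.Colorable c) :
    ch G ≤ c := by
  unfold ch
  exact_mod_cast ENat.toNat_le_of_le_natCast h.chromaticNumber_le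

/-- changing one block changes the chromatic number by at most one -/
private lemma dif_MCD {n : ℕ} (j : Fin n) (ω ω' : Sym2 (Fin n) → Bool)
    (h : ∀ e, bl_MCD e ≠ j → ω e = ω' e) : ch (gr ω) - ch (gr ω') ≤ 1 := by
  obtain ⟨C⟩ := SimpleGraph.colorable_chromaticNumber_of_fintype (gr ω')
  have hc : (gr ω).Colorable ((gr ω').chromaticNumber.toNat + 1) := by
    refine ⟨SimpleGraph.Coloring.mk (fun v => if v = j then Fin.last _ else (C v).castSucc) ?_⟩
    intro v w hvw
    by_cases hv : v = j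
    · by_cases hw : w = j
      · exact absurd (hv.trans hw.symm) hvw.1
      · rw [if_pos hv, if_neg hw]
        exact (Fin.castSucc_lt_last _).ne'
    · by_cases hw : w = j
      · rw [if_neg hv, if_pos hw]
        exact (Fin.castSucc_lt_last _).ne
      · rw [if_neg hv, if_neg hw, Ne, Fin.castSucc_inj]
        refine C.valid ⟨hvw.1, ?_⟩
        rw [← h s(v, w)]
        · exact hvw.2
        · show max v w ≠ j
          rcases max_choice v w with h1 | h1
          · rw [h1]; exact hv
          · rw [h1]; exact hw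
  have h2 := ch_le_MCD hc
  rw [Nat.cast_add, Nat.cast_one] at h2
  have h3 : ch (gr ω') = ((gr ω').chromaticNumber.toNat : ℝ) := rfl
  linarith

private lemma sq_le_MCD (y : ℝ) : y ^ 2 ≤ Real.exp y + Real.exp (-y) - 2 := by
  have h1 : Real.cosh y = Real.cosh (2 * (y / 2)) := by congr 1; ring
  have h2 := Real.cosh_two_mul (y / 2)
  have h3 := Real.cosh_sq (y / 2)
  have h4 : Real.exp y + Real.exp (-y) = 2 * Real.cosh y := by
    rw [Real.cosh_eq]; ring
  have h5 : (y / 2) ^ 2 ≤ Real.sinh (y / 2) ^ 2 := by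
    rcases le_total 0 (y / 2) with h | h
    · exact pow_le_pow_left₀ h (Real.self_le_sinh_iff.2 h) 2
    · have h6 := Real.sinh_le_self_iff.2 h
      nlinarith
  rw [h4, h1, h2, h3]
  nlinarith

theorem tMCD : StMcg → StMcd := by
  intro hM p n t h0 h1 hn ht
  have hn0 : (0 : ℝ) < n := by exact_mod_cast hn
  have key : ∀ s : ℝ, EE p (fun ω : Sym2 (Fin n) → Bool =>
      Real.exp (s * (ch (gr ω) - fn p n))) ≤ Real.exp (s ^ 2 * n / 2) := by
    intro s
    exact hM p n (Sym2 (Fin n)) bl_MCD (fun ω => ch (gr ω)) s h0 h1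
      (fun j ω ω' h => dif_MCD j ω ω' h)
  constructor
  · -- the variance
    have hs : (0 : ℝ) < √(n : ℝ) := Real.sqrt_pos.2 hn0
    have hsq : √(n : ℝ) ^ 2 = n := Real.sq_sqrt hn0.le
    have hb : ∀ ω : Sym2 (Fin n) → Bool, (ch (gr ω) - fn p n) ^ 2 ≤
        (n : ℝ) * (Real.exp ((√(n : ℝ))⁻¹ * (ch (gr ω) - fn p n)) +
          Real.exp (-(√(n : ℝ))⁻¹ * (ch (gr ω) - fn p n)) - 2) := by
      intro ω
      have h2 := sq_le_MCD ((√(n : ℝ))⁻¹ * (ch (gr ω) - fn p n))
      rw [← neg_mul] at h2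
      have h3 : (ch (gr ω) - fn p n) ^ 2 =
          (n : ℝ) * ((√(n : ℝ))⁻¹ * (ch (gr ω) - fn p n)) ^ 2 := by
        rw [mul_pow, inv_pow, hsq]
        field_simp
      rw [h3]
      exact mul_le_mul_of_nonneg_left h2 hn0.le
    have h4 : vn p n ≤ (n : ℝ) * (Real.exp (1 / 2) + Real.exp (1 / 2) - 2) := by
      unfold vn
      refine (EE_mono h0 h1 hb).trans ?_
      rw [EE_mul_left, EE_sub, EE_add, EE_const]
      refine mul_le_mul_of_nonneg_left ?_ hn0.le
      have k1 := key (√(n : ℝ))⁻¹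
      have k2 := key (-(√(n : ℝ))⁻¹)
      have e1 : (√(n : ℝ))⁻¹ ^ 2 * n / 2 = 1 / 2 := by
        rw [inv_pow, hsq, inv_mul_cancel₀ hn0.ne']
      have e2 : (-(√(n : ℝ))⁻¹) ^ 2 * n / 2 = 1 / 2 := by
        rw [neg_sq]; exact e1
      rw [e1] at k1
      rw [e2] at k2
      linarith
    have h5 : Real.exp (1 / 2) ≤ 2 := by
      have h6 : Real.exp (1 / 2) ^ 2 = Real.exp 1 := by
        rw [← Real.exp_nat_mul]; norm_num
      have h7 : Real.exp 1 < 4 := by linarith [Real.exp_one_lt_d9]
      nlinarith [Real.exp_pos (1 / 2)]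
    nlinarith
  · -- the tail
    have hb : ∀ ω : Sym2 (Fin n) → Bool,
        (if ch (gr ω) ≤ fn p n - t then (1 : ℝ) else 0) ≤
          Real.exp (-(t ^ 2 / n)) * Real.exp ((-(t / n)) * (ch (gr ω) - fn p n)) := by
      intro ω
      split_ifs with h
      · rw [← Real.exp_add]
        apply Real.one_le_exp
        have h2 : t ≤ -(ch (gr ω) - fn p n) := by linarith
        have h3 : 0 ≤ t / n := by positivity
        have h4 : t ^ 2 / n = t / n * t := by ring
        have h5 := mul_le_mul_of_nonneg_left h2 h3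
        rw [h4]
        linarith
      · positivity
    refine (EE_mono h0 h1 hb).trans ?_
    rw [EE_mul_left]
    refine (mul_le_mul_of_nonneg_left (key _) (Real.exp_pos _).le).trans ?_
    rw [← Real.exp_add]
    apply le_of_eq
    congr 1
    field_simp
    ring

end Pool.Agent.Helper89.CN
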